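import Mathlib

set_option autoImplicit false

open MeasureTheory Filter

namespace Pool.Agent.Results.MP_eb99da_pr.NotAR

/-- The random walk with increments `ω 0 = ζ₁, ω 1 = ζ₂, …`: `walk ω n = ζ₁ ζ₂ ⋯ ζₙ`. -/
def walk {G : Type} [Group G] (ω : ℕ → G) (n : ℕ) : G := ((List.range n).map ω).prod

/-- The semigroup `𝒮ₙ` generated by `{Xₙ, Xₙ₊₁, …}`. -/
def tailSemigroup {G : Type} [Group G] (ω : ℕ → G) (n : ℕ) : Subsemigroup G :=
  Subsemigroup.closure {g | ∃ m, n ≤ m ∧ walk ω m = g}

/-- The law of an i.i.d. sequence of increments with law `μ` (the infinite product measure on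
`G^ℕ`, where `G` is discrete). -/
noncomputable def incrementLaw {G : Type} (μ : PMF G) :
    @Measure (ℕ → G) (@MeasurableSpace.pi ℕ (fun _ => G) (fun _ => ⊤)) :=
  @Measure.infinitePi ℕ (fun _ => G) (fun _ => ⊤) (fun _ => @PMF.toMeasure G ⊤ μ)

/-- `(G, μ)` is algebraically recurrent: for every `n ≥ 1`, almost surely `𝒮ₙ = G`. -/
def PairAR (G : Type) [Group G] (μ : PMF G) : Prop :=
  ∀ n : ℕ, 1 ≤ n → ∀ᵐ ω ∂(incrementLaw μ), tailSemigroup ω n = ⊤

/-- The group `G` is algebraically recurrent: `(G, μ)` is, for every symmetric probability `μ`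
whose support generates `G` as a group. -/
def GroupAR (G : Type) [Group G] : Prop :=
  ∀ μ : PMF G, (∀ g, μ g⁻¹ = μ g) → Subgroup.closure μ.support = ⊤ → PairAR G μ

/-! ### The deterministic part -/

/-- enumeration of the coordinates -/
def φ : ℕ ≃ ℤ := Equiv.intEquivNat.symm

/-- the sign attached to a Boolean -/
def sg (b : Bool) : ℤ := if b then 1 else -1

lemma sg_mul_self (b : Bool) : sg b * sg b = 1 := by
  cases b <;> simp [sg]

/-- the step `± e_k` -/
noncomputable def ψ (z : ℕ × Bool) : Multiplicative (ℤ →₀ ℤ) :=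
  Multiplicative.ofAdd (Finsupp.single (φ z.1) (sg z.2))

lemma walk_succ {G : Type} [Group G] (ω : ℕ → G) (n : ℕ) :
    walk ω (n + 1) = walk ω n * ω n := by
  simp [walk, List.range_succ]

lemma walk_coord (w : ℕ → ℕ × Bool) (m k : ℕ) :
    (Multiplicative.toAdd (walk (fun i => ψ (w i)) m)) (φ k) =
      ∑ l ∈ Finset.range m, if (w l).1 = k then sg (w l).2 else 0 := by
  induction m with
  | zero => simp [walk]
  | succ m ih =>
    rw [walk_succ, Finset.sum_range_succ, ← ih, toAdd_mul, Finsupp.add_apply]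
    congr 1
    simp only [ψ, toAdd_ofAdd, Finsupp.single_apply, EmbeddingLike.apply_eq_iff_eq]

/-- the bad event: two visits to `k`, at times `i` and `i + 1 + m`, all earlier visits being
below `k` -/
def Bad (k i m : ℕ) : Set (ℕ → ℕ × Bool) :=
  {w | (w i).1 = k ∧ (w (i + 1 + m)).1 = k ∧
    ∀ l, l < i + 1 + m → l ≠ i → (w l).1 < k}

/-- the random lexicographic cone -/
def cone (s : ℕ → ℤ) : Subsemigroup (Multiplicative (ℤ →₀ ℤ)) where
  carrier := {x | ∃ k, 0 < s k * (Multiplicative.toAdd x) (φ k) ∧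
    ∀ k', k < k' → (Multiplicative.toAdd x) (φ k') = 0}
  mul_mem' := by
    rintro x y ⟨k, hk, hk'⟩ ⟨j, hj, hj'⟩
    rcases lt_trichotomy k j with h | h | h
    · refine ⟨j, ?_, fun k' hk'' => ?_⟩
      · rw [toAdd_mul, Finsupp.add_apply, hk' j h, zero_add]; exact hj
      · rw [toAdd_mul, Finsupp.add_apply, hk' k' (h.trans hk''), hj' k' hk'', zero_add]
    · subst h
      refine ⟨k, ?_, fun k' hk'' => ?_⟩
      · rw [toAdd_mul, Finsupp.add_apply, mul_add]; exact add_pos hk hj
      · rw [toAdd_mul, Finsupp.add_apply, hk' k' hk'', hj' k' hk'', zero_add]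
    · refine ⟨k, ?_, fun k' hk'' => ?_⟩
      · rw [toAdd_mul, Finsupp.add_apply, hj' k h, add_zero]; exact hk
      · rw [toAdd_mul, Finsupp.add_apply, hj' k' (h.trans hk''), hk' k' hk'', zero_add]

lemma one_notMem_cone (s : ℕ → ℤ) : (1 : Multiplicative (ℤ →₀ ℤ)) ∉ cone s := by
  rintro ⟨k, hk, -⟩
  simp at hk

lemma key (w : ℕ → ℕ × Bool) (hw : ∀ k i m, w ∉ Bad k i m) :
    tailSemigroup (fun i => ψ (w i)) 1 ≠ ⊤ := by
  classical
  -- the sign of the first visit
  let s : ℕ → ℤ := fun k => if h : ∃ i, (w i).1 = k then sg (w (Nat.find h)).2 else 1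
  have hle : tailSemigroup (fun i => ψ (w i)) 1 ≤ cone s := by
    rw [tailSemigroup, Subsemigroup.closure_le]
    rintro g ⟨m, hm, rfl⟩
    -- the maximal index
    have hne : (Finset.range m).Nonempty := ⟨0, Finset.mem_range.2 (by omega)⟩
    obtain ⟨i₀, hi₀, hmax⟩ := Finset.exists_max_image (Finset.range m) (fun l => (w l).1) hne
    set k := (w i₀).1 with hk
    have hex : ∃ i, (w i).1 = k := ⟨i₀, rfl⟩
    have hmem : i₀ < m := by simpa using hi₀
    have hmax' : ∀ l, l < m → (w l).1 ≤ k := fun l hl => hmax l (by simpa using hl)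
    set i := Nat.find hex with hi
    have hik : (w i).1 = k := Nat.find_spec hex
    have hfirst : ∀ l, l < i → (w l).1 ≠ k := fun l hl => Nat.find_min hex hl
    have him : i < m := lt_of_le_of_lt (Nat.find_min' hex rfl) hmem
    have huniq : ∀ l, l < m → (w l).1 = k → l = i := by
      by_contra hcon
      push Not at hcon
      obtain ⟨l₁, hl₁m, hl₁k, hl₁i⟩ := hcon
      have hex2 : ∃ l, (w l).1 = k ∧ l ≠ i := ⟨l₁, hl₁k, hl₁i⟩
      set j := Nat.find hex2 with hj
      have hj1 : (w j).1 = k ∧ j ≠ i := Nat.find_spec hex2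
      have hj2 : ∀ l, l < j → l ≠ i → (w l).1 ≠ k := by
        intro l hl hli hlk
        exact Nat.find_min hex2 hl ⟨hlk, hli⟩
      have hij : i < j := by
        rcases lt_trichotomy i j with h | h | h
        · exact h
        · exact absurd h.symm hj1.2
        · exact absurd hj1.1 (hfirst j h)
      have hjm : j < m := lt_of_le_of_lt (Nat.find_min' hex2 ⟨hl₁k, hl₁i⟩) hl₁m
      obtain ⟨d, hd⟩ : ∃ d, j = i + 1 + d := ⟨j - (i + 1), by omega⟩
      apply hw k i d
      refine ⟨hik, hd ▸ hj1.1, fun l hl hli => ?_⟩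
      rw [← hd] at hl
      exact lt_of_le_of_ne (hmax' l (hl.trans hjm)) (hj2 l hl hli)
    refine ⟨k, ?_, fun k' hk' => ?_⟩
    · have hsum : (∑ l ∈ Finset.range m, if (w l).1 = k then sg (w l).2 else 0) = sg (w i).2 := by
        rw [Finset.sum_eq_single i]
        · rw [if_pos hik]
        · intro l hl hli
          rw [if_neg]
          intro hlk
          exact hli (huniq l (by simpa using hl) hlk)
        · intro h
          exact absurd (by simpa using him) h
      have hs : s k = sg (w i).2 := by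
        simp only [s]
        rw [dif_pos hex]
      rw [walk_coord, hsum, hs, sg_mul_self]
      exact one_pos
    · rw [walk_coord]
      apply Finset.sum_eq_zero
      intro l hl
      rw [if_neg]
      intro h
      have := hmax' l (by simpa using hl)
      omega
  intro htop
  have : (1 : Multiplicative (ℤ →₀ ℤ)) ∈ cone s := hle (htop ▸ Subsemigroup.mem_top _)
  exact one_notMem_cone s this

/-! ### The law of the steps -/

/-- `p k = 1 / ((k+1)(k+2))` -/
noncomputable def pr (k : ℕ) : ℝ := 1 / (((k : ℝ) + 1) * ((k : ℝ) + 2))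

lemma pr_nonneg (k : ℕ) : 0 ≤ pr k := by unfold pr; positivity

lemma pr_pos (k : ℕ) : 0 < pr k := by unfold pr; positivity

lemma sum_pr (n : ℕ) : ∑ l ∈ Finset.range n, pr l = (n : ℝ) / ((n : ℝ) + 1) := by
  induction n with
  | zero => simp
  | succ n ih =>
    rw [Finset.sum_range_succ, ih, pr]
    push_cast
    field_simp
    ring

lemma hasSum_pr : HasSum pr 1 := by
  rw [hasSum_iff_tendsto_nat_of_nonneg pr_nonneg]
  simp_rw [sum_pr]
  exact tendsto_natCast_div_add_atTop (1 : ℝ)

/-- the law of the index -/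
noncomputable def pidx : PMF ℕ :=
  ⟨fun k => ENNReal.ofReal (pr k), by
    have h := ENNReal.ofReal_tsum_of_nonneg pr_nonneg hasSum_pr.summable
    rw [hasSum_pr.tsum_eq, ENNReal.ofReal_one] at h
    rw [h]
    exact ENNReal.summable.hasSum⟩

/-- the law of (index, sign) -/
noncomputable def nu : PMF (ℕ × Bool) :=
  pidx.bind fun k => (PMF.uniformOfFintype Bool).map fun b => (k, b)

lemma nu_apply (k : ℕ) (b : Bool) : nu (k, b) = ENNReal.ofReal (pr k) / 2 := by
  rw [nu, PMF.bind_apply, tsum_eq_single k]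
  · rw [PMF.map_apply, tsum_eq_single b]
    · simp [pidx, ENNReal.div_eq_inv_mul, mul_comm]
      rfl
    · intro b' hb'
      rw [if_neg]
      intro h
      exact hb' (Prod.ext_iff.1 h).2.symm
  · intro k' hk'
    rw [PMF.map_apply]
    simp only [mul_eq_zero]
    right
    rw [ENNReal.tsum_eq_zero]
    intro b'
    rw [if_neg]
    intro h
    exact hk' (Prod.ext_iff.1 h).1.symm

lemma nu_fst : nu.map Prod.fst = pidx := by
  rw [nu, PMF.map_bind]
  have h : ∀ a : ℕ, PMF.map Prod.fst (PMF.map (fun b => (a, b)) (PMF.uniformOfFintype Bool))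
      = PMF.pure a := by
    intro a
    rw [PMF.map_comp]
    exact PMF.map_const _ a
  simp only [h]
  exact PMF.bind_pure _

lemma nu_eq (k : ℕ) : nu.toMeasure {z | z.1 = k} = ENNReal.ofReal (pr k) := by
  have h : nu.toMeasure (Prod.fst ⁻¹' {k}) = (nu.map Prod.fst).toMeasure {k} :=
    (PMF.toMeasure_map_apply Prod.fst nu {k} measurable_fst (MeasurableSet.singleton k)).symm
  rw [nu_fst, PMF.toMeasure_apply_singleton _ _ (MeasurableSet.singleton k)] at h
  exact h

lemma nu_lt (k : ℕ) :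
    nu.toMeasure {z | z.1 < k} = ENNReal.ofReal ((k : ℝ) / ((k : ℝ) + 1)) := by
  have hm : MeasurableSet (↑(Finset.range k) : Set ℕ) := MeasurableSet.of_discrete
  have h : nu.toMeasure (Prod.fst ⁻¹' (↑(Finset.range k) : Set ℕ)) =
      (nu.map Prod.fst).toMeasure (↑(Finset.range k) : Set ℕ) :=
    (PMF.toMeasure_map_apply Prod.fst nu _ measurable_fst hm).symm
  rw [nu_fst, PMF.toMeasure_apply_finset, ← sum_pr,
    ENNReal.ofReal_sum_of_nonneg (fun i _ => pr_nonneg i)] at *
  have h2 : (Prod.fst ⁻¹' (↑(Finset.range k) : Set ℕ) : Set (ℕ × Bool)) = {z | z.1 < k} := by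
    ext z; simp
  rw [h2] at h
  exact h

/-- the law of the sequence of (index, sign) -/
noncomputable def PP : Measure (ℕ → ℕ × Bool) :=
  Measure.infinitePi (fun _ => nu.toMeasure)

instance : IsProbabilityMeasure PP := by
  unfold PP; infer_instance

lemma bad_le (k i m : ℕ) :
    PP (Bad k i m) = ENNReal.ofReal ((k : ℝ) / ((k : ℝ) + 1)) ^ i * ENNReal.ofReal (pr k) *
      ENNReal.ofReal ((k : ℝ) / ((k : ℝ) + 1)) ^ m * ENNReal.ofReal (pr k) := by
  classical
  have hset : Bad k i m = Set.pi (↑(Finset.range (i + 1 + m + 1)) : Set ℕ)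
      (fun l => if l = i ∨ l = i + 1 + m then {z : ℕ × Bool | z.1 = k} else {z | z.1 < k}) := by
    ext w
    simp only [Bad, Set.mem_ofPred_eq, Set.mem_pi, Finset.coe_range, Set.mem_Iio]
    constructor
    · rintro ⟨h1, h2, h3⟩ l hl
      split_ifs with h
      · rcases h with rfl | rfl
        · exact h1
        · exact h2
      · push Not at h
        exact h3 l (by omega) h.1
    · intro h
      refine ⟨?_, ?_, fun l hl hli => ?_⟩
      · have := h i (by omega)
        rw [if_pos (Or.inl rfl)] at this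
        exact this
      · have := h (i + 1 + m) (by omega)
        rw [if_pos (Or.inr rfl)] at this
        exact this
      · have := h l (by omega)
        rw [if_neg (by omega)] at this
        exact this
  rw [hset, PP, Measure.infinitePi_pi]
  · rw [Finset.prod_range_succ, Finset.prod_range_add, Finset.prod_range_succ]
    rw [if_pos (Or.inl rfl), if_pos (Or.inr rfl), nu_eq]
    congr 2
    · congr 1
      rw [← nu_lt]
      rw [Finset.prod_congr rfl (g := fun _ => nu.toMeasure {z : ℕ × Bool | z.1 < k})]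
      · simp
      · intro l hl
        have := Finset.mem_range.1 hl
        rw [if_neg (by omega)]
    · rw [← nu_lt]
      rw [Finset.prod_congr rfl (g := fun _ => nu.toMeasure {z : ℕ × Bool | z.1 < k})]
      · simp
      · intro l hl
        have := Finset.mem_range.1 hl
        rw [if_neg (by omega)]
  · intro l _
    exact MeasurableSet.of_discrete

lemma one_sub_frac (k : ℕ) : (1 - ENNReal.ofReal ((k : ℝ) / ((k : ℝ) + 1)))⁻¹ =
    ENNReal.ofReal ((k : ℝ) + 1) := by
  have h0 : (0 : ℝ) < (k : ℝ) + 1 := by positivity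
  rw [← ENNReal.ofReal_one, ← ENNReal.ofReal_sub _ (by positivity),
    ← ENNReal.ofReal_inv_of_pos]
  · congr 1
    field_simp
    ring
  · rw [sub_pos, div_lt_one h0]
    linarith

lemma sum_bad (k : ℕ) :
    ∑' i : ℕ, ∑' m : ℕ, PP (Bad k i m) = ENNReal.ofReal ((1 / ((k : ℝ) + 2)) ^ 2) := by
  simp_rw [bad_le]
  simp_rw [ENNReal.tsum_mul_right, ENNReal.tsum_mul_left, ENNReal.tsum_mul_right]
  rw [ENNReal.tsum_geometric, one_sub_frac]
  have h0 : (0 : ℝ) < (k : ℝ) + 1 := by positivity
  rw [← ENNReal.ofReal_mul h0.le, ← ENNReal.ofReal_mul (by have := pr_nonneg k; positivity),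
    ← ENNReal.ofReal_mul (by have := pr_nonneg k; positivity)]
  congr 1
  unfold pr
  field_simp

lemma tsum_sq_lt : ∑' k : ℕ, ENNReal.ofReal ((1 / ((k : ℝ) + 2)) ^ 2) < 1 := by
  have hle : ∀ k : ℕ, (1 / ((k : ℝ) + 2)) ^ 2 ≤ pr k := by
    intro k
    unfold pr
    rw [div_pow, one_pow]
    apply one_div_le_one_div_of_le (by positivity)
    nlinarith [(Nat.cast_nonneg k : (0 : ℝ) ≤ k)]
  have hlt : (1 / (((0 : ℕ) : ℝ) + 2)) ^ 2 < pr 0 := by
    unfold pr; norm_num
  have hsum : Summable (fun k : ℕ => (1 / ((k : ℝ) + 2)) ^ 2) :=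
    Summable.of_nonneg_of_le (fun k => by positivity) hle hasSum_pr.summable
  rw [← ENNReal.ofReal_tsum_of_nonneg (fun k => by positivity) hsum]
  rw [← ENNReal.ofReal_one]
  rw [ENNReal.ofReal_lt_ofReal_iff one_pos]
  calc ∑' k : ℕ, (1 / ((k : ℝ) + 2)) ^ 2 < ∑' k : ℕ, pr k :=
        hsum.tsum_lt_tsum hle hlt hasSum_pr.summable
    _ = 1 := hasSum_pr.tsum_eq

lemma union_lt : PP (⋃ k, ⋃ i, ⋃ m, Bad k i m) < 1 := by
  calc PP (⋃ k, ⋃ i, ⋃ m, Bad k i m) ≤ ∑' k, PP (⋃ i, ⋃ m, Bad k i m) := measure_iUnion_le _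
    _ ≤ ∑' k, ∑' i, ∑' m, PP (Bad k i m) := by
        refine ENNReal.tsum_le_tsum fun k => ?_
        refine (measure_iUnion_le _).trans ?_
        exact ENNReal.tsum_le_tsum fun i => measure_iUnion_le _
    _ = ∑' k : ℕ, ENNReal.ofReal ((1 / ((k : ℝ) + 2)) ^ 2) := by simp_rw [sum_bad]
    _ < 1 := tsum_sq_lt

/-! ### The step distribution on the group -/

/-- the step law on `⨁_ℤ ℤ` -/
noncomputable def mu : PMF (Multiplicative (ℤ →₀ ℤ)) := nu.map ψ

lemma ψ_inj : Function.Injective ψ := by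
  rintro ⟨k, b⟩ ⟨k', b'⟩ h
  have h1 : Finsupp.single (φ k) (sg b) = Finsupp.single (φ k') (sg b') :=
    Multiplicative.ofAdd.injective h
  rw [Finsupp.single_eq_single_iff] at h1
  rcases h1 with ⟨h2, h3⟩ | ⟨h2, -⟩
  · have h4 : k = k' := φ.injective h2
    subst h4
    cases b <;> cases b' <;> simp_all [sg]
  · cases b <;> simp [sg] at h2

lemma ψ_not (k : ℕ) (b : Bool) : ψ (k, !b) = (ψ (k, b))⁻¹ := by
  unfold ψ
  rw [← ofAdd_neg, ← Finsupp.single_neg]
  congr 2
  cases b <;> simp [sg]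

lemma mu_ψ (z : ℕ × Bool) : mu (ψ z) = nu z := by
  rw [mu, PMF.map_apply, tsum_eq_single z]
  · simp
  · intro z' hz'
    rw [if_neg]
    intro h
    exact hz' (ψ_inj h).symm

lemma mu_eq_zero (g : Multiplicative (ℤ →₀ ℤ)) (hg : g ∉ Set.range ψ) : mu g = 0 := by
  rw [mu, PMF.map_apply, ENNReal.tsum_eq_zero]
  intro z
  rw [if_neg]
  rintro rfl
  exact hg ⟨z, rfl⟩

lemma mu_symm (g : Multiplicative (ℤ →₀ ℤ)) : mu g⁻¹ = mu g := by
  by_cases hg : g ∈ Set.range ψ
  · obtain ⟨⟨k, b⟩, rfl⟩ := hg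
    rw [← ψ_not, mu_ψ, mu_ψ, nu_apply, nu_apply]
  · rw [mu_eq_zero g hg, mu_eq_zero]
    rintro ⟨⟨k, b⟩, h⟩
    apply hg
    refine ⟨(k, !b), ?_⟩
    rw [ψ_not, h, inv_inv]

lemma mu_gen : Subgroup.closure mu.support = ⊤ := by
  rw [eq_top_iff]
  rintro g -
  have hmem : ∀ k : ℕ, Multiplicative.ofAdd (Finsupp.single (φ k) (1 : ℤ)) ∈
      Subgroup.closure mu.support := by
    intro k
    apply Subgroup.subset_closure
    have h : ψ (k, true) = Multiplicative.ofAdd (Finsupp.single (φ k) (1 : ℤ)) := by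
      simp [ψ, sg]
    rw [← h, PMF.mem_support_iff, mu_ψ, nu_apply]
    have := pr_pos k
    simp [this]
  suffices h : ∀ f : ℤ →₀ ℤ, Multiplicative.ofAdd f ∈ Subgroup.closure mu.support from
    h (Multiplicative.toAdd g)
  intro f
  induction f using Finsupp.induction_linear with
  | zero => exact Subgroup.one_mem _
  | add f g hf hg => rw [ofAdd_add]; exact Subgroup.mul_mem _ hf hg
  | single a n =>
    have h1 := hmem (φ.symm a)
    rw [Equiv.apply_symm_apply] at h1
    have h2 : Multiplicative.ofAdd (Finsupp.single a n) =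
        (Multiplicative.ofAdd (Finsupp.single a (1 : ℤ))) ^ n := by
      rw [← ofAdd_zsmul]
      simp
    rw [h2]
    exact Subgroup.zpow_mem _ h1 n

/-- The group `⨁_ℤ ℤ` (written multiplicatively) is not algebraically recurrent. -/
theorem result : ¬ GroupAR (Multiplicative (ℤ →₀ ℤ)) := by
  intro h
  have h1 := h mu mu_symm mu_gen 1 le_rfl
  let _ : MeasurableSpace (Multiplicative (ℤ →₀ ℤ)) := ⊤
  have hψ : Measurable ψ := measurable_from_prod_countable_right fun _ => Measurable.of_discrete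
  have hmap : incrementLaw mu = PP.map (fun w i => ψ (w i)) := by
    have h2 := Measure.infinitePi_map_pi (μ := fun _ : ℕ => nu.toMeasure)
      (f := fun _ : ℕ => ψ) (fun _ => hψ)
    have h3 : Measure.map ψ nu.toMeasure = mu.toMeasure := PMF.toMeasure_map ψ nu hψ
    have h4 : (fun _ : ℕ => Measure.map ψ nu.toMeasure) = fun _ : ℕ => mu.toMeasure := by
      rw [h3]
    have h5 : incrementLaw mu = Measure.infinitePi (fun _ : ℕ => Measure.map ψ nu.toMeasure) := by
      rw [h4]; rfl
    rw [h5]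
    exact h2.symm
  rw [hmap] at h1
  have hΨ : Measurable (fun (w : ℕ → ℕ × Bool) (i : ℕ) => ψ (w i)) :=
    measurable_pi_lambda _ fun i => hψ.comp (measurable_pi_apply i)
  have h4 := ae_of_ae_map hΨ.aemeasurable h1
  have h5 : ∀ᵐ w ∂PP, w ∈ ⋃ k, ⋃ i, ⋃ m, Bad k i m := by
    filter_upwards [h4] with w hw
    by_contra hcon
    simp only [Set.mem_iUnion, not_exists] at hcon
    exact key w hcon hw
  have h6 : PP (⋃ k, ⋃ i, ⋃ m, Bad k i m) = 1 := by
    have h7 : PP (⋃ k, ⋃ i, ⋃ m, Bad k i m) = PP Set.univ :=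
      measure_congr (by
        filter_upwards [h5] with w hw
        exact propext ⟨fun _ => trivial, fun _ => hw⟩)
    rw [h7, measure_univ]
  exact absurd h6 union_lt.ne

end Pool.Agent.Results.MP_eb99da_pr.NotAR
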